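import Pool.Agent.L0h54.HV.Stm
import Pool.Agent.Helper112.Arith

set_option autoImplicit false

/-! # Module EVN: the squares -/

namespace Pool.Agent.L0h68.HV

open Finset
open scoped Classical
open Pool.Agent.H306R2.RZ (js LSB)
open Pool.Agent.L0h41.MQ (AP cf odd ww mem_AP even_part one_le_ww)
open ArithmeticFunction (vonMangoldt)

/-- the number of squares up to `z` -/
lemma squares_card (z : ℕ) : (((Ioc 0 z).filter (fun n => IsSquare n)).card : ℝ) ≤ √(z : ℝ) := by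
  have h1 : (Ioc 0 z).filter (fun n => IsSquare n) ⊆ (Ioc 0 (Nat.sqrt z)).image (fun n => n * n) := by
    intro n hn
    rw [mem_filter, mem_Ioc] at hn
    obtain ⟨⟨h0, hz⟩, m, hm⟩ := hn
    rw [mem_image]
    refine ⟨m, ?_, hm.symm⟩
    rw [mem_Ioc]
    refine ⟨?_, ?_⟩
    · rcases Nat.eq_zero_or_pos m with h | h
      · rw [h] at hm
        omega
      · exact h
    · rw [Nat.le_sqrt]
      omega
  have h2 : ((Ioc 0 z).filter (fun n => IsSquare n)).card ≤ Nat.sqrt z := by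
    refine (card_le_card h1).trans (card_image_le.trans ?_)
    rw [Nat.card_Ioc]
    omega
  calc (((Ioc 0 z).filter (fun n => IsSquare n)).card : ℝ) ≤ (Nat.sqrt z : ℝ) := by exact_mod_cast h2
    _ ≤ √(z : ℝ) := Real.nat_sqrt_le_real_sqrt

/-- each `n` lies in one class -/
lemma class_sum (q z : ℕ) (P : ℕ → Prop) [DecidablePred P] :
    ∑ a ∈ range q, (((AP 0 z q a).filter P).card : ℝ) ≤ (((Ioc 0 z).filter P).card : ℝ) := by
  have h : ∑ a ∈ range q, ((AP 0 z q a).filter P).card ≤ ((Ioc 0 z).filter P).card := by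
    rw [← card_biUnion]
    · apply card_le_card
      intro n hn
      rw [mem_biUnion] at hn
      obtain ⟨a, -, hn⟩ := hn
      rw [mem_filter, mem_AP] at hn
      rw [mem_filter, mem_Ioc]
      exact ⟨hn.1.1, hn.2⟩
    · intro a ha b hb hab
      rw [Function.onFun, disjoint_left]
      intro n h1 h2
      rw [mem_filter, mem_AP] at h1 h2
      apply hab
      have h3 : a ≡ b [MOD q] := h1.1.2.symm.trans h2.1.2
      have ha' : a < q := by simpa using ha
      have hb' : b < q := by simpa using hb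
      exact Nat.ModEq.eq_of_lt_of_lt h3 ha' hb'
  exact_mod_cast h

theorem t_EVN : Pool.Agent.L0h54.HV.EVN := by
  intro η hη
  obtain ⟨C1, hC1, hdiv⟩ := Pool.Agent.Helper112.divisor_bound η hη
  have hC1' : (0:ℝ) < C1 := hC1
  refine ⟨(4 / η) ^ 2 * (1 + √(2 * C1)), by positivity, ?_⟩
  intro N q z f hf hN hq hz l
  have hN1 : (1 : ℝ) ≤ N := by exact_mod_cast (by omega : 1 ≤ N)
  have hN0 : (0 : ℝ) < N := by linarith
  have hq0 : (0 : ℝ) < q := by exact_mod_cast hq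
  have hlog0 : 0 ≤ Real.log N := Real.log_nonneg hN1
  obtain ⟨E, hE⟩ : ∃ E : ℕ → ℝ, E = fun a =>
    ∑ n ∈ (AP 0 z q a).filter (fun n => IsSquare n), vonMangoldt n * f n * js (n : ℤ) l := ⟨_, rfl⟩
  obtain ⟨M, hM⟩ : ∃ M : ℝ, M = (Real.log N * (1 + √(2 * (C1 * (N : ℝ) ^ η)))) * √(ww 0 z q) := ⟨_, rfl⟩
  have hM0 : 0 ≤ M := by rw [hM]; positivity
  have h1 : ∀ a, |E a| ≤ M := fun a => by
    rw [hE, hM]
    exact even_part N 0 z q a C1 η hη hC1' hdiv (by omega) f hf l (Nat.zero_le _) hz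
  have h2 : ∀ a, |E a| ≤ (((AP 0 z q a).filter (fun n => IsSquare n)).card : ℝ) * Real.log N := by
    intro a
    rw [hE]
    refine (abs_sum_le_sum_abs _ _).trans ?_
    rw [← nsmul_eq_mul]
    apply sum_le_card_nsmul
    intro n hn
    rw [mem_filter, mem_AP] at hn
    rw [abs_mul, abs_mul, abs_of_nonneg ArithmeticFunction.vonMangoldt_nonneg]
    have h3 : vonMangoldt n ≤ Real.log N := ArithmeticFunction.vonMangoldt_le_log.trans
      (Real.log_le_log (by exact_mod_cast (by omega : 0 < n)) (by exact_mod_cast (by omega : n ≤ N)))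
    have h4 : |js (n : ℤ) l| ≤ 1 := by
      unfold js
      rcases jacobiSym.trichotomy (n : ℤ) l with h | h | h <;> rw [h] <;> simp
    calc vonMangoldt n * |f n| * |js (n : ℤ) l| ≤ Real.log N * 1 * 1 := by
          gcongr
          exact hf n
      _ = _ := by ring
  have h3 : ∑ a ∈ range q, |E a| ≤ √(N : ℝ) * Real.log N := by
    calc ∑ a ∈ range q, |E a| ≤
        ∑ a ∈ range q, (((AP 0 z q a).filter (fun n => IsSquare n)).card : ℝ) * Real.log N :=
          sum_le_sum fun a _ => h2 a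
      _ = (∑ a ∈ range q, (((AP 0 z q a).filter (fun n => IsSquare n)).card : ℝ)) * Real.log N := by
          rw [sum_mul]
      _ ≤ √(N : ℝ) * Real.log N := by
          apply mul_le_mul_of_nonneg_right _ hlog0
          refine (class_sum q z _).trans ((squares_card z).trans ?_)
          exact Real.sqrt_le_sqrt (by exact_mod_cast hz)
  have h4 : ∑ a ∈ range q, E a ^ 2 ≤ M * (√(N : ℝ) * Real.log N) := by
    calc ∑ a ∈ range q, E a ^ 2 ≤ ∑ a ∈ range q, M * |E a| := by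
          apply sum_le_sum
          intro a _
          rw [← sq_abs, sq]
          exact mul_le_mul_of_nonneg_right (h1 a) (abs_nonneg _)
      _ = M * ∑ a ∈ range q, |E a| := by rw [mul_sum]
      _ ≤ _ := mul_le_mul_of_nonneg_left h3 hM0
  have hNη : (1:ℝ) ≤ (N:ℝ) ^ (η / 2) := Real.one_le_rpow hN1 (by positivity)
  have h5 : √(2 * (C1 * (N : ℝ) ^ η)) = √(2 * C1) * (N:ℝ) ^ (η / 2) := by
    rw [← mul_assoc, Real.sqrt_mul (by positivity)]
    congr 1
    rw [Real.sqrt_eq_rpow, ← Real.rpow_mul hN0.le]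
    congr 1
    ring
  have h6 : 1 + √(2 * (C1 * (N : ℝ) ^ η)) ≤ (1 + √(2 * C1)) * (N:ℝ) ^ (η / 2) := by
    rw [h5, add_mul, one_mul]
    linarith
  have h7 : √(ww 0 z q) ≤ √(N:ℝ) / √(q:ℝ) + 1 := by
    have h8 : ww 0 z q ≤ (N:ℝ) / q + 1 := by
      unfold ww
      have : (z:ℝ) ≤ N := by exact_mod_cast hz
      have : ((z:ℝ) - (0:ℕ)) / q ≤ (N:ℝ) / q := by
        apply div_le_div_of_nonneg_right _ hq0.le
        push_cast
        linarith
      linarith
    refine (Real.sqrt_le_sqrt h8).trans ?_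
    rw [Real.sqrt_le_left (by positivity)]
    have h9 : (√(N:ℝ) / √(q:ℝ)) ^ 2 = (N:ℝ) / q := by
      rw [div_pow, Real.sq_sqrt hN0.le, Real.sq_sqrt hq0.le]
    have h10 : 0 ≤ √(N:ℝ) / √(q:ℝ) := by positivity
    nlinarith
  have h8 : Real.log N ≤ 4 / η * (N:ℝ) ^ (η / 4) := by
    have := Real.log_le_rpow_div hN0.le (by positivity : 0 < η / 4)
    calc Real.log N ≤ (N:ℝ) ^ (η / 4) / (η / 4) := this
      _ = _ := by field_simp
  have h9 : Real.log N ^ 2 ≤ (4 / η) ^ 2 * (N:ℝ) ^ (η / 2) := by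
    calc Real.log N ^ 2 ≤ (4 / η * (N:ℝ) ^ (η / 4)) ^ 2 := pow_le_pow_left₀ hlog0 h8 2
      _ = (4 / η) ^ 2 * ((N:ℝ) ^ (η / 4)) ^ 2 := mul_pow _ _ _
      _ = _ := by
        congr 1
        rw [← Real.rpow_natCast, ← Real.rpow_mul hN0.le]
        congr 1
        push_cast
        ring
  have h10 : (N:ℝ) ^ (η / 2) * (N:ℝ) ^ (η / 2) = (N:ℝ) ^ η := by
    rw [← Real.rpow_add hN0]
    congr 1
    ring
  have h11 : (√(N:ℝ) / √(q:ℝ) + 1) * √(N:ℝ) = (N:ℝ) / √(q:ℝ) + √(N:ℝ) := by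
    have : √(N:ℝ) * √(N:ℝ) = N := Real.mul_self_sqrt hN0.le
    rw [add_mul, one_mul, div_mul_eq_mul_div, this]
  have hgoal : ∑ a ∈ range q, E a ^ 2 ≤
      (4 / η) ^ 2 * (1 + √(2 * C1)) * (N:ℝ) ^ η * ((N:ℝ) / √(q:ℝ) + √(N:ℝ)) := by
    calc ∑ a ∈ range q, E a ^ 2 ≤ M * (√(N : ℝ) * Real.log N) := h4
      _ = Real.log N ^ 2 * (1 + √(2 * (C1 * (N : ℝ) ^ η))) * (√(ww 0 z q) * √(N:ℝ)) := by
          rw [hM]
          ring
      _ ≤ ((4 / η) ^ 2 * (N:ℝ) ^ (η / 2)) * ((1 + √(2 * C1)) * (N:ℝ) ^ (η / 2)) *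
            ((√(N:ℝ) / √(q:ℝ) + 1) * √(N:ℝ)) := by
          gcongr
      _ = (4 / η) ^ 2 * (1 + √(2 * C1)) * ((N:ℝ) ^ (η / 2) * (N:ℝ) ^ (η / 2)) *
            ((√(N:ℝ) / √(q:ℝ) + 1) * √(N:ℝ)) := by ring
      _ = _ := by rw [h10, h11]
  rw [hE] at hgoal
  exact hgoal

end Pool.Agent.L0h68.HV
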